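import Mathlib

set_option autoImplicit false

namespace Pool.Agent.Helper318.MB

/-- the fast growing scale -/
def N : ℕ → ℕ
  | 0 => 1000
  | i + 1 => 400 * (N i) ^ 4

/-- planted elements at the stage `(M, n)`, for the residues satisfying `S` -/
def P (M n : ℕ) (S : ℕ → Prop) : Set ℕ :=
  {x | ∃ k τ : ℕ, 1 ≤ k ∧ k < M ∧ τ < M ∧ S τ ∧
    (x + 4 * M * (M * k + τ) = n / 2 ∨ x + τ = n / 2 + 4 * M * (M * k + τ))}

/-- small elements -/
def Bs (M n : ℕ) : Set ℕ := {x | x < n / 5 ∧ ∃ q ρ : ℕ, M < ρ ∧ ρ < 4 * M ∧ x = 4 * M * q + ρ}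

/-- the block -/
def Bl (n : ℕ) : Set ℕ := {x | 11 * n / 20 ≤ x ∧ x ≤ 3 * n / 5 + 1}

open Classical in
/-- the element which is made critical at stage `i` -/
noncomputable def cr (i : ℕ) (S : Set ℕ) : ℕ := if i ∈ S then i else 3 * N i / 5 + 1

/-- the stages of the construction -/
noncomputable def A : ℕ → Set ℕ
  | 0 => {0, 1, 11 * N 0 / 20, 3 * N 0 / 5 + 1}
  | i + 1 => A i ∪ Bs (N i) (N (i + 1)) ∪ Bl (N (i + 1)) ∪
      P (N i) (N (i + 1)) (fun τ => τ = cr i (A i) ∨ τ ∉ A i)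

/-- the set -/
def AA : Set ℕ := ⋃ i, A i

/-- representations of `m` as an ordered sum of three elements of `B` -/
def R3 (B : Set ℕ) (m : ℕ) : Set (ℕ × ℕ × ℕ) :=
  {p | p.1 ∈ B ∧ p.2.1 ∈ B ∧ p.2.2 ∈ B ∧ p.1 + p.2.1 + p.2.2 = m}


lemma N_ge (i : ℕ) : 1000 ≤ N i := by
  induction i with
  | zero => simp [N]
  | succ i ih =>
    simp only [N]
    nlinarith [Nat.pow_le_pow_left ih 4]

lemma N_succ (i : ℕ) : N (i + 1) = 400 * (N i) ^ 4 := rfl

lemma pow_bd {M : ℕ} (hM : 1000 ≤ M) : 1000 * M ≤ M ^ 2 ∧ 1000 * M ^ 2 ≤ M ^ 3 ∧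
    1000 * M ^ 3 ≤ M ^ 4 := by
  refine ⟨?_, ?_, ?_⟩ <;> nlinarith [Nat.zero_le M, Nat.zero_le (M ^ 2), Nat.zero_le (M ^ 3)]

lemma N_lt (i : ℕ) : 1000 * N i < N (i + 1) := by
  obtain ⟨h1, h2, h3⟩ := pow_bd (N_ge i)
  have := N_ge i
  rw [N_succ]; omega

lemma N_mono : StrictMono N := strictMono_nat_of_lt_succ (fun i => by have := N_lt i; omega)

lemma lt_N (i : ℕ) : i < N i := by
  induction i with
  | zero => simp [N]
  | succ i ih => have := N_lt i; omega

/-- the explicit fractions of `n = N (i+1)` -/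
lemma fracs (i : ℕ) : N (i + 1) / 5 = 80 * (N i) ^ 4 ∧ N (i + 1) / 2 = 200 * (N i) ^ 4 ∧
    11 * N (i + 1) / 20 = 220 * (N i) ^ 4 ∧ 3 * N (i + 1) / 5 = 240 * (N i) ^ 4 := by
  rw [N_succ]; omega

/-- the index `e = M k + τ` is less than `M^2` -/
lemma e_bd {M k τ : ℕ} (hk : k < M) (hτ : τ < M) : M * k + τ < M ^ 2 := by
  have : M * (k + 1) ≤ M * M := Nat.mul_le_mul_left _ hk
  nlinarith

lemma Me_bd {M k τ : ℕ} (hk : k < M) (hτ : τ < M) : 4 * M * (M * k + τ) < 4 * M ^ 3 := by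
  have h := e_bd hk hτ
  have hM : 0 < 4 * M := by omega
  have := Nat.mul_lt_mul_of_pos_left h hM
  calc _ < 4 * M * M ^ 2 := this
    _ = _ := by ring

lemma P_bd {i : ℕ} {S : ℕ → Prop} {x : ℕ} (hx : x ∈ P (N i) (N (i + 1)) S) :
    200 * (N i) ^ 4 - 4 * (N i) ^ 3 < x ∧ x < 200 * (N i) ^ 4 + 4 * (N i) ^ 3 := by
  obtain ⟨k, τ, hk1, hk2, hτ, -, h⟩ := hx
  have h1 := Me_bd hk2 hτ
  obtain ⟨f1, f2, f3, f4⟩ := fracs i
  obtain ⟨h2, h3, h4⟩ := pow_bd (N_ge i)
  have h5 : 4 * N i * (N i * 1 + 0) ≤ 4 * N i * (N i * k + τ) := by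
    apply Nat.mul_le_mul_left
    apply Nat.add_le_add
    · exact Nat.mul_le_mul_left _ hk1
    · omega
  have h6 : 4 * N i * (N i * 1 + 0) = 4 * (N i) ^ 2 := by ring
  rw [f2] at h
  have := N_ge i
  omega

lemma mem_succ {i x : ℕ} : x ∈ A (i + 1) ↔ x ∈ A i ∨ x ∈ Bs (N i) (N (i + 1)) ∨
    x ∈ Bl (N (i + 1)) ∨ x ∈ P (N i) (N (i + 1)) (fun τ => τ = cr i (A i) ∨ τ ∉ A i) := by
  simp only [A, Set.mem_union]
  tauto

lemma A_mono : Monotone A := monotone_nat_of_le_succ (fun i x hx => mem_succ.2 (Or.inl hx))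

lemma Bs_gt {i x : ℕ} (hx : x ∈ Bs (N i) (N (i + 1))) : N i < x := by
  obtain ⟨-, q, ρ, h1, h2, h3⟩ := hx
  have : 0 ≤ 4 * N i * q := Nat.zero_le _
  omega

lemma Bl_gt {i x : ℕ} (hx : x ∈ Bl (N (i + 1))) : N i < x := by
  obtain ⟨h1, -⟩ := hx
  obtain ⟨f1, f2, f3, f4⟩ := fracs i
  obtain ⟨h2, h3, h4⟩ := pow_bd (N_ge i)
  have := N_ge i
  omega

lemma P_gt {i x : ℕ} {S : ℕ → Prop} (hx : x ∈ P (N i) (N (i + 1)) S) : N i < x := by
  have h1 := (P_bd hx).1
  obtain ⟨h2, h3, h4⟩ := pow_bd (N_ge i)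
  have := N_ge i
  omega

/-- size bounds: the last element, and the gap below the block -/
lemma A_bd (i x : ℕ) (hx : x ∈ A i) : x ≤ 3 * N i / 5 + 1 ∧
    (x < 11 * N i / 20 → 100 * x ≤ 51 * N i) := by
  cases i with
  | zero =>
    simp only [A, N, Set.mem_insert_iff, Set.mem_singleton_iff] at hx ⊢
    omega
  | succ i =>
    obtain ⟨f1, f2, f3, f4⟩ := fracs i
    obtain ⟨h2, h3, h4⟩ := pow_bd (N_ge i)
    have hN := N_ge i
    have hn := N_succ i
    have aux : ∀ j, ∀ y ∈ A j, y < N j := by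
      intro j
      induction j with
      | zero =>
        intro y hy
        simp only [A, N, Set.mem_insert_iff, Set.mem_singleton_iff] at hy ⊢
        omega
      | succ j ih =>
        intro y hy
        obtain ⟨f1, f2, f3, f4⟩ := fracs j
        obtain ⟨h2, h3, h4⟩ := pow_bd (N_ge j)
        have hN := N_ge j
        have hn := N_succ j
        rcases mem_succ.1 hy with h | h | h | h
        · have := ih y h; have := N_lt j; omega
        · have := h.1; omega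
        · have := h.2; omega
        · have := (P_bd h).2; omega
    rcases mem_succ.1 hx with h | h | h | h
    · have := aux i x h
      omega
    · have := h.1
      omega
    · have h5 := h.1
      have h6 := h.2
      omega
    · have := P_bd h
      omega

lemma A_lt {i x : ℕ} (hx : x ∈ A i) : x < N i := by
  have := (A_bd i x hx).1
  have := N_ge i
  omega

lemma AA_cap {i x : ℕ} (hx : x ∈ AA) (h : x ≤ N i) : x ∈ A i := by
  obtain ⟨j, hj⟩ := Set.mem_iUnion.1 hx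
  induction j with
  | zero => exact A_mono (Nat.zero_le i) hj
  | succ j ih =>
    rcases Nat.lt_or_ge i (j + 1) with hij | hij
    · apply ih
      rcases mem_succ.1 hj with h' | h' | h' | h'
      · exact h'
      · have := Bs_gt h'
        have h3 : N i ≤ N j := N_mono.monotone (by omega)
        omega
      · have := Bl_gt h'
        have h3 : N i ≤ N j := N_mono.monotone (by omega)
        omega
      · have := P_gt h'
        have h3 : N i ≤ N j := N_mono.monotone (by omega)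
        omega
    · exact A_mono hij hj

lemma A_sub_AA {i x : ℕ} (hx : x ∈ A i) : x ∈ AA := Set.mem_iUnion.2 ⟨i, hx⟩

lemma zero_mem : 0 ∈ AA := A_sub_AA (i := 0) (by simp [A])

lemma one_mem : 1 ∈ AA := A_sub_AA (i := 0) (by simp [A])

lemma W_mem (i : ℕ) : 3 * N i / 5 + 1 ∈ A i := by
  cases i with
  | zero => simp [A]
  | succ i =>
    refine mem_succ.2 (Or.inr (Or.inr (Or.inl ⟨?_, le_rfl⟩)))
    omega

lemma V_mem (i : ℕ) : 11 * N i / 20 ∈ A i := by
  cases i with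
  | zero => simp [A]
  | succ i =>
    refine mem_succ.2 (Or.inr (Or.inr (Or.inl ⟨le_rfl, ?_⟩)))
    omega

lemma cr_mem (i : ℕ) : cr i (A i) ∈ A i := by
  unfold cr
  split_ifs with h
  · exact h
  · exact W_mem i

lemma R3_finite (B : Set ℕ) (m : ℕ) : (R3 B m).Finite := by
  apply Set.Finite.subset ((Set.finite_Iic m).prod ((Set.finite_Iic m).prod (Set.finite_Iic m)))
  rintro ⟨x, y, z⟩ ⟨-, -, -, h⟩
  simp only [Set.mem_prod, Set.mem_Iic] at h ⊢
  omega

lemma ncard_ge {B : Set ℕ} {m K : ℕ} (f : ℕ → ℕ × ℕ × ℕ) (hf : ∀ j < K, f j ∈ R3 B m)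
    (hinj : ∀ j < K, ∀ l < K, f j = f l → j = l) : K ≤ (R3 B m).ncard := by
  have h1 : (f '' (Finset.range K : Set ℕ)).ncard = K := by
    rw [Set.ncard_image_of_injOn, Set.ncard_coe_finset, Finset.card_range]
    intro a ha b hb h
    exact hinj a (by simpa using ha) b (by simpa using hb) h
  rw [← h1]
  apply Set.ncard_le_ncard _ (R3_finite B m)
  rintro _ ⟨j, hj, rfl⟩
  exact hf j (by simpa using hj)

end Pool.Agent.Helper318.MB
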