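import Mathlib
import Pool.Agent.Helper318.MB.Basic

set_option autoImplicit false

namespace Pool.Agent.Helper318.MB



/-- for every finite `F`, the number of representations avoiding `F` grows like a power -/
theorem growth (F : Set ℕ) (hF : F.Finite)
    (hcov : ∀ (i m : ℕ), (∀ x ∈ F, x ≤ i) → N (i + 2) + N (i + 1) / 100 < m →
      m ≤ N (i + 3) + N (i + 2) / 100 → N i ≤ (R3 (AA \ F) m).ncard) :
    ∀ᶠ m : ℕ in Filter.atTop, (m : ℝ) ^ (1 / 128 : ℝ) ≤ ((R3 (AA \ F) m).ncard : ℝ) := by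
  obtain ⟨b, hb⟩ := hF.bddAbove
  have hb' : ∀ x ∈ F, x ≤ b := fun x hx => hb hx
  have h5 : ∀ j, N (j + 1) ≤ N j ^ 5 := by
    intro j
    rw [N_succ]
    have h1 := N_ge j
    calc 400 * N j ^ 4 ≤ N j * N j ^ 4 := Nat.mul_le_mul_right _ (by omega)
      _ = N j ^ 5 := by ring
  filter_upwards [Filter.eventually_gt_atTop (N (b + 2) + N (b + 1) / 100)] with m hm
  classical
  have hex : ∃ j, b ≤ j ∧ m ≤ N (j + 3) + N (j + 2) / 100 := by
    refine ⟨b + m, by omega, ?_⟩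
    have := lt_N (b + m + 3)
    omega
  have hi := Nat.find_spec hex
  have hmin := fun {j : ℕ} => Nat.find_min (m := j) hex
  generalize Nat.find hex = i at hi hmin
  obtain ⟨hbi, hmi⟩ := hi
  have hlow : N (i + 2) + N (i + 1) / 100 < m := by
    rcases Nat.eq_or_lt_of_le hbi with h | h
    · rw [← h]; exact hm
    · obtain ⟨l, rfl⟩ : ∃ l, i = l + 1 := ⟨i - 1, by omega⟩
      by_contra hcon
      have e1 : N (l + 1 + 2) = N (l + 3) := rfl
      have e2 : N (l + 1 + 1) = N (l + 2) := rfl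
      exact hmin (Nat.lt_succ_self l) ⟨by omega, by omega⟩
  have hN := hcov i m (fun x hx => (hb' x hx).trans hbi) hlow hmi
  have h1 := N_ge i
  have hb1 : N (i + 1) ≤ N i ^ 5 := h5 i
  have hb2 : N (i + 2) ≤ N i ^ 25 := by
    calc N (i + 2) ≤ N (i + 1) ^ 5 := h5 (i + 1)
      _ ≤ (N i ^ 5) ^ 5 := Nat.pow_le_pow_left hb1 5
      _ = N i ^ 25 := by rw [← pow_mul]
  have hb3 : N (i + 3) ≤ N i ^ 125 := by
    calc N (i + 3) ≤ N (i + 2) ^ 5 := h5 (i + 2)
      _ ≤ (N i ^ 25) ^ 5 := Nat.pow_le_pow_left hb2 5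
      _ = N i ^ 125 := by rw [← pow_mul]
  have hm2 : m ≤ N i ^ 128 := by
    have h2 : N (i + 2) ≤ N (i + 3) := N_mono.monotone (by omega)
    have h3 : m ≤ 2 * N (i + 3) := by omega
    calc m ≤ 2 * N (i + 3) := h3
      _ ≤ N i ^ 3 * N i ^ 125 := by
        apply Nat.mul_le_mul _ hb3
        calc 2 ≤ N i := by omega
          _ ≤ N i ^ 3 := Nat.le_self_pow (by norm_num) _
      _ = N i ^ 128 := by rw [← pow_add]
  calc (m : ℝ) ^ (1 / 128 : ℝ) ≤ ((N i : ℝ) ^ 128) ^ (1 / 128 : ℝ) := by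
        apply Real.rpow_le_rpow (Nat.cast_nonneg _) _ (by norm_num)
        exact_mod_cast hm2
    _ = (N i : ℝ) := by
        have := Real.pow_rpow_inv_natCast (x := (N i : ℝ)) (n := 128) (Nat.cast_nonneg _)
          (by norm_num)
        rw [one_div]
        exact_mod_cast this
    _ ≤ _ := by exact_mod_cast hN

end Pool.Agent.Helper318.MB
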