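import Mathlib
import Pool.Agent.Helper318.MB.Basic

set_option autoImplicit false

namespace Pool.Agent.Helper318.MB


lemma modu {M s1 s2 r1 r2 : ℕ} (h : 4 * M * s1 + r1 = 4 * M * s2 + r2) (h1 : r1 < 4 * M)
    (h2 : r2 < 4 * M) : r1 = r2 := by
  have e1 : (4 * M * s1 + r1) % (4 * M) = r1 := by
    rw [Nat.mul_add_mod]; exact Nat.mod_eq_of_lt h1
  have e2 : (4 * M * s2 + r2) % (4 * M) = r2 := by
    rw [Nat.mul_add_mod]; exact Nat.mod_eq_of_lt h2
  rw [← e1, ← e2, h]

lemma crit_sorted (i x y z : ℕ) (hx : x ∈ AA) (hy : y ∈ AA) (hz : z ∈ AA) (hxy : x ≤ y)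
    (hyz : y ≤ z) (h : x + y + z = N (i + 1)) : x = cr i (A i) := by
  obtain ⟨f1, f2, f3, f4⟩ := fracs i
  obtain ⟨g2, g3, g4⟩ := pow_bd (N_ge i)
  have hM := N_ge i
  have hn := N_succ i
  have hx' := mem_succ.1 (AA_cap hx (by omega : x ≤ N (i + 1)))
  have hy' := mem_succ.1 (AA_cap hy (by omega : y ≤ N (i + 1)))
  have hz' := mem_succ.1 (AA_cap hz (by omega : z ≤ N (i + 1)))
  have hAlt : ∀ t, t ∈ A i → t < N i := fun t ht => A_lt ht
  have hBlt : ∀ t, t ∈ Bs (N i) (N (i + 1)) → t < 80 * N i ^ 4 := fun t ht => by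
    have := ht.1; omega
  have hBl : ∀ t, t ∈ Bl (N (i + 1)) → 220 * N i ^ 4 ≤ t ∧ t ≤ 240 * N i ^ 4 + 1 :=
    fun t ht => by
      have h1 := ht.1
      have h2 := ht.2
      omega
  have hP := fun t (ht : t ∈ P (N i) (N (i + 1)) (fun τ => τ = cr i (A i) ∨ τ ∉ A i)) => P_bd ht
  -- z is in P
  have hzP : z ∈ P (N i) (N (i + 1)) (fun τ => τ = cr i (A i) ∨ τ ∉ A i) := by
    rcases hz' with h1 | h1 | h1 | h1
    · have := hAlt z h1; omega
    · have := hBlt z h1; omega
    · exfalso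
      have h2 := hBl z h1
      rcases hy' with h3 | h3 | h3 | h3
      · have := hAlt y h3; omega
      · have := hBlt y h3; omega
      · have := hBl y h3; omega
      · have := hP y h3; omega
    · exact h1
  have hzb := hP z hzP
  have hyP : y ∈ P (N i) (N (i + 1)) (fun τ => τ = cr i (A i) ∨ τ ∉ A i) := by
    rcases hy' with h3 | h3 | h3 | h3
    · have := hAlt y h3; omega
    · have := hBlt y h3; omega
    · have := hBl y h3; omega
    · exact h3
  have hyb := hP y hyP
  have hxs : x ∈ A i ∨ x ∈ Bs (N i) (N (i + 1)) := by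
    rcases hx' with h3 | h3 | h3 | h3
    · exact Or.inl h3
    · exact Or.inr h3
    · have := hBl x h3; omega
    · have := hP x h3; omega
  obtain ⟨k1, t1, k11, k12, t11, s1, e1⟩ := hyP
  obtain ⟨k2, t2, k21, k22, t21, s2, e2⟩ := hzP
  have q1 : 4 * N i * 1 ≤ 4 * N i * (N i * k1 + t1) := by
    apply Nat.mul_le_mul_left
    have : N i * 1 ≤ N i * k1 := Nat.mul_le_mul_left _ k11
    omega
  have q2 : 4 * N i * 1 ≤ 4 * N i * (N i * k2 + t2) := by
    apply Nat.mul_le_mul_left
    have : N i * 1 ≤ N i * k2 := Nat.mul_le_mul_left _ k21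
    omega
  -- the mixed case
  have mixed : ∀ (u v t : ℕ), t < N i → (t = cr i (A i) ∨ t ∉ A i) →
      x + 4 * N i * v = 4 * N i * u + t → x = cr i (A i) := by
    intro u v t ht hs he
    rcases hxs with h3 | ⟨-, q, ρ, r1, r2, r3⟩
    · have h4 := hAlt x h3
      have h5 : x = t := modu (M := N i) (s1 := v) (s2 := u) (by omega) (by omega) (by omega)
      rw [← h5] at hs
      rcases hs with hs | hs
      · exact hs
      · exact absurd h3 hs
    · exfalso
      have h5 : ρ = t := modu (M := N i) (s1 := q + v) (s2 := u)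
        (by rw [mul_add]; omega) (by omega) (by omega)
      omega
  rw [f2] at e1 e2
  rcases e1 with e1 | e1 <;> rcases e2 with e2 | e2
  · exfalso
    have h6 : x = 4 * N i * ((N i * k1 + t1) + (N i * k2 + t2)) := by
      rw [mul_add (4 * N i)]; omega
    rcases hxs with h3 | ⟨-, q, ρ, r1, r2, r3⟩
    · have h4 := hAlt x h3
      rw [mul_add (4 * N i)] at h6; omega
    · have h5 : ρ = 0 := modu (M := N i) (s1 := q) (s2 := (N i * k1 + t1) + (N i * k2 + t2))
        (by omega) (by omega) (by omega)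
      omega
  · exact mixed _ _ t2 t21 s2 (by omega : x + 4 * N i * (N i * k2 + t2) =
      4 * N i * (N i * k1 + t1) + t2)
  · exact mixed _ _ t1 t11 s1 (by omega : x + 4 * N i * (N i * k1 + t1) =
      4 * N i * (N i * k2 + t2) + t1)
  · exfalso
    omega

/-- every representation of `N (i+1)` contains the critical element -/
theorem crit (i x y z : ℕ) (hx : x ∈ AA) (hy : y ∈ AA) (hz : z ∈ AA)
    (h : x + y + z = N (i + 1)) : x = cr i (A i) ∨ y = cr i (A i) ∨ z = cr i (A i) := by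
  rcases le_total x y with h1 | h1 <;> rcases le_total y z with h2 | h2 <;>
    rcases le_total x z with h3 | h3
  · exact Or.inl (crit_sorted i x y z hx hy hz h1 h2 h)
  · exact Or.inl (crit_sorted i x y z hx hy hz h1 h2 h)
  · exact Or.inl (crit_sorted i x z y hx hz hy h3 h2 (by omega))
  · exact Or.inr (Or.inr (crit_sorted i z x y hz hx hy h3 h1 (by omega)))
  · exact Or.inr (Or.inl (crit_sorted i y x z hy hx hz h1 h3 (by omega)))
  · exact Or.inr (Or.inl (crit_sorted i y z x hy hz hx h2 h3 (by omega)))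
  · exact Or.inr (Or.inr (crit_sorted i z y x hz hy hx h2 h1 (by omega)))
  · exact Or.inr (Or.inr (crit_sorted i z y x hz hy hx h2 h1 (by omega)))

/-- K2: every element is critical for some number -/
theorem K2 : ∀ a ∈ AA, ∃ n : ℕ, a < n ∧ 1 < n ∧ n - 1 ∉ AA ∧
      ∀ x ∈ AA, ∀ y ∈ AA, ∀ z ∈ AA, x + y + z = n → x = a ∨ y = a ∨ z = a := by
  intro a ha
  have h1 := lt_N a
  have h2 : a ∈ A a := AA_cap ha h1.le
  have h3 : cr a (A a) = a := by unfold cr; rw [if_pos h2]
  have h4 := N_lt a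
  have h5 := N_ge a
  refine ⟨N (a + 1), by omega, by omega, ?_, ?_⟩
  · intro h
    have h6 := (A_bd (a + 1) _ (AA_cap h (by omega : N (a + 1) - 1 ≤ N (a + 1)))).1
    omega
  · intro x hx y hy z hz h
    have := crit a x y z hx hy hz h
    rwa [h3] at this

end Pool.Agent.Helper318.MB
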