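import Mathlib
import Pool.Agent.Helper318.MB.Basic

set_option autoImplicit false

namespace Pool.Agent.Helper318.MB


lemma fin_count {i m K : ℕ} {F : Set ℕ} (hF : ∀ x ∈ F, x ≤ i) (g : ℕ → ℕ)
    (hg : ∀ j < K, ∀ l < K, g j = g l → j = l)
    (h : ∀ j < K, ∃ y z : ℕ, g j ∈ AA ∧ y ∈ AA ∧ z ∈ AA ∧ i < g j ∧ i < y ∧ i < z ∧
      g j + y + z = m) : K ≤ (R3 (AA \ F) m).ncard := by
  have hex : ∀ j : ℕ, ∃ p : ℕ × ℕ × ℕ, j < K → p ∈ R3 (AA \ F) m ∧ p.1 = g j := by
    intro j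
    by_cases hj : j < K
    · obtain ⟨y, z, h1, h2, h3, h4, h5, h6, h7⟩ := h j hj
      refine ⟨(g j, y, z), fun _ => ⟨⟨⟨h1, ?_⟩, ⟨h2, ?_⟩, ⟨h3, ?_⟩, h7⟩, rfl⟩⟩
      · intro h; have h' : g j ≤ i := hF _ h; omega
      · intro h; have h' : y ≤ i := hF _ h; omega
      · intro h; have h' : z ≤ i := hF _ h; omega
    · exact ⟨(0, 0, 0), fun h => absurd h hj⟩
  choose f hf using hex
  apply ncard_ge f
  · intro j hj
    exact (hf j hj).1
  · intro j hj l hl hjl
    apply hg j hj l hl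
    rw [← (hf j hj).2, ← (hf l hl).2, hjl]

lemma bs_mem {p y : ℕ} (q ρ : ℕ) (h1 : N p < ρ) (h2 : ρ < 4 * N p) (h3 : y = 4 * N p * q + ρ)
    (h4 : y < 80 * N p ^ 4) : y ∈ AA := by
  obtain ⟨f1, f2, f3, f4⟩ := fracs p
  exact A_sub_AA (mem_succ.2 (Or.inr (Or.inl ⟨by omega, q, ρ, h1, h2, h3⟩)))

lemma bs_small {p y : ℕ} (h1 : N p < y) (h2 : y < 4 * N p) : y ∈ AA := by
  obtain ⟨g2, g3, g4⟩ := pow_bd (N_ge p)
  have := N_ge p
  exact bs_mem (p := p) 0 y h1 h2 (by ring) (by omega)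

lemma bs_top {p y j : ℕ} (hj : j < N p) (hy : y + 1 + j = 80 * N p ^ 4) : y ∈ AA := by
  have hM := N_ge p
  obtain ⟨g2, g3, g4⟩ := pow_bd (N_ge p)
  have e : 4 * N p * (20 * N p ^ 3 - 1) + 4 * N p = 80 * N p ^ 4 := by
    have h1 : 20 * N p ^ 3 - 1 + 1 = 20 * N p ^ 3 := by omega
    calc 4 * N p * (20 * N p ^ 3 - 1) + 4 * N p = 4 * N p * (20 * N p ^ 3 - 1 + 1) := by ring
      _ = _ := by rw [h1]; ring
  exact bs_mem (p := p) (20 * N p ^ 3 - 1) (4 * N p - 1 - j) (by omega) (by omega) (by omega)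
    (by omega)

lemma bl_mem {p x : ℕ} (h1 : 220 * N p ^ 4 ≤ x) (h2 : x ≤ 240 * N p ^ 4 + 1) : x ∈ AA := by
  obtain ⟨f1, f2, f3, f4⟩ := fracs p
  have hb : x ∈ Bl (N (p + 1)) := by
    constructor
    · omega
    · omega
  exact A_sub_AA (i := p + 1) (mem_succ.2 (Or.inr (Or.inr (Or.inl hb))))

/-- splitting with given quotient -/
lemma two_aux {p s q r : ℕ} (hs : s = 4 * N p * q + r) (h1 : 2 * N p + 2 ≤ r)
    (h2 : r + 2 ≤ 8 * N p) (h3 : s + 12 * N p ≤ 160 * N p ^ 4) :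
    ∃ y z : ℕ, y ∈ AA ∧ z ∈ AA ∧ N p < y ∧ N p < z ∧ y + z = s := by
  have hM := N_ge p
  have e1 : 4 * N p * (q / 2) + 4 * N p * (q - q / 2) = 4 * N p * q := by
    rw [← mul_add]; congr 1; omega
  have e2 : 4 * N p * (q - q / 2) ≤ 4 * N p * (q / 2) + 4 * N p := by
    have : 4 * N p * (q - q / 2) ≤ 4 * N p * (q / 2 + 1) := Nat.mul_le_mul_left _ (by omega)
    rw [mul_add, mul_one] at this
    exact this
  have e3 : 4 * N p * (q / 2) ≤ 4 * N p * (q - q / 2) := Nat.mul_le_mul_left _ (by omega)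
  refine ⟨4 * N p * (q / 2) + r / 2, 4 * N p * (q - q / 2) + (r - r / 2), ?_, ?_, ?_, ?_, ?_⟩
  · exact bs_mem (p := p) (q / 2) (r / 2) (by omega) (by omega) rfl (by omega)
  · exact bs_mem (p := p) (q - q / 2) (r - r / 2) (by omega) (by omega) rfl (by omega)
  · omega
  · omega
  · omega

lemma two {p s : ℕ} (h1 : 20 * N p ≤ s) (h2 : s + 20 * N p ≤ 160 * N p ^ 4) :
    ∃ y z : ℕ, y ∈ AA ∧ z ∈ AA ∧ N p < y ∧ N p < z ∧ y + z = s := by
  have hM := N_ge p
  have h0 : 0 < 4 * N p := by omega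
  have e1 : 4 * N p * (s / (4 * N p)) + s % (4 * N p) = s := Nat.div_add_mod s (4 * N p)
  have e2 : s % (4 * N p) < 4 * N p := Nat.mod_lt _ h0
  have e3 : 1 ≤ s / (4 * N p) := by
    rw [Nat.one_le_div_iff h0]; omega
  obtain ⟨q, hq⟩ : ∃ q, s / (4 * N p) = q + 1 := ⟨s / (4 * N p) - 1, by omega⟩
  rw [hq, mul_add, mul_one] at e1
  by_cases hr : 2 * N p + 2 ≤ s % (4 * N p)
  · exact two_aux (p := p) (q := q + 1) (r := s % (4 * N p)) (by rw [mul_add]; omega) hr (by omega)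
      (by omega)
  · exact two_aux (p := p) (q := q) (r := 4 * N p + s % (4 * N p)) (by omega) (by omega) (by omega)
      (by omega)

/-- coverage away from the critical numbers -/
theorem cover_far (i m : ℕ) (F : Set ℕ) (hF : ∀ x ∈ F, x ≤ i)
    (h1 : N (i + 2) + N (i + 1) / 100 < m) (h2 : m + N (i + 2) / 100 < N (i + 3)) :
    N i ≤ (R3 (AA \ F) m).ncard := by
  have l0 := lt_N i
  have l1 : 1000 * N i < N (i + 1) := N_lt i
  have l2 : 1000 * N (i + 1) < N (i + 2) := N_lt (i + 1)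
  have hK := N_ge i
  have hM := N_ge (i + 2)
  have hn : N (i + 3) = 400 * N (i + 2) ^ 4 := N_succ (i + 2)
  obtain ⟨g2, g3, g4⟩ := pow_bd hM
  by_cases c1 : m ≤ 4 * N (i + 2)
  · -- case 1a
    refine fin_count hF (fun j => N i + 1 + j) (fun j _ l _ h => by simpa using h) ?_
    intro j hj
    refine ⟨N i + 1, m - (N i + 1 + j) - (N i + 1), bs_small (p := i) (by omega) (by omega),
      bs_small (p := i) (by omega) (by omega), bs_small (p := i + 2) (by omega) (by omega),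
      by omega, by omega, by omega, by omega⟩
  by_cases c2 : m < 21 * N (i + 2)
  · -- case 1b
    have h0 : 0 < 4 * N (i + 2) := by omega
    have e1 := Nat.div_add_mod m (4 * N (i + 2))
    have e2 : m % (4 * N (i + 2)) < 4 * N (i + 2) := Nat.mod_lt _ h0
    have e3 : 1 ≤ m / (4 * N (i + 2)) := by
      rw [Nat.one_le_div_iff h0]; omega
    obtain ⟨q, hq⟩ : ∃ q, m / (4 * N (i + 2)) = q + 1 := ⟨m / (4 * N (i + 2)) - 1, by omega⟩
    rw [hq, mul_add, mul_one] at e1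
    refine fin_count hF (fun j => 4 * N (i + 2) * q + (N (i + 2) + 1 + j))
      (fun j hj l hl h => by omega) ?_
    intro j hj
    have hr : 4 * N (i + 2) + m % (4 * N (i + 2)) - (N (i + 2) + 1 + j) + 2 ≤ 8 * N (i + 2) := by
      omega
    refine ⟨(4 * N (i + 2) + m % (4 * N (i + 2)) - (N (i + 2) + 1 + j)) / 2,
      (4 * N (i + 2) + m % (4 * N (i + 2)) - (N (i + 2) + 1 + j)) -
        (4 * N (i + 2) + m % (4 * N (i + 2)) - (N (i + 2) + 1 + j)) / 2,
      bs_mem (p := i + 2) q (N (i + 2) + 1 + j) (by omega) (by omega) rfl (by omega),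
      bs_small (p := i + 2) (by omega) (by omega), bs_small (p := i + 2) (by omega) (by omega),
      by omega, by omega, by omega, by omega⟩
  by_cases c3 : m + 20 * N (i + 2) ≤ 160 * N (i + 2) ^ 4
  · refine fin_count hF (fun j => N i + 1 + j) (fun j _ l _ h => by simpa using h) ?_
    intro j hj
    obtain ⟨y, z, h3, h4, h5, h6, h7⟩ := two (p := i + 2) (s := m - (N i + 1 + j))
      (by omega) (by omega)
    exact ⟨y, z, bs_small (p := i) (by omega) (by omega), h3, h4, by omega, by omega, by omega,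
      by omega⟩
  by_cases c4 : m + 21 * N (i + 2) ≤ 240 * N (i + 2) ^ 4
  · refine fin_count hF (fun j => 80 * N (i + 2) ^ 4 - 1 - j)
      (fun j hj l hl h => by omega) ?_
    intro j hj
    obtain ⟨y, z, h3, h4, h5, h6, h7⟩ := two (p := i + 2) (s := m - (80 * N (i + 2) ^ 4 - 1 - j))
      (by omega) (by omega)
    exact ⟨y, z, bs_top (p := i + 2) (j := j) (by omega) (by omega), h3, h4, by omega, by omega,
      by omega, by omega⟩
  by_cases c5 : m ≤ 380 * N (i + 2) ^ 4 + 10 * N (i + 2)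
  · refine fin_count hF (fun j => 220 * N (i + 2) ^ 4 + 30 * N (i + 2) + j)
      (fun j _ l _ h => by simpa using h) ?_
    intro j hj
    obtain ⟨y, z, h3, h4, h5, h6, h7⟩ := two (p := i + 2)
      (s := m - (220 * N (i + 2) ^ 4 + 30 * N (i + 2) + j)) (by omega) (by omega)
    exact ⟨y, z, bl_mem (p := i + 2) (by omega) (by omega), h3, h4, by omega, by omega,
      by omega, by omega⟩
  · refine fin_count hF (fun j => m - 160 * N (i + 2) ^ 4 + 2 + j)
      (fun j _ l _ h => by simpa using h) ?_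
    intro j hj
    refine ⟨80 * N (i + 2) ^ 4 - 1 - j, 80 * N (i + 2) ^ 4 - 1,
      bl_mem (p := i + 2) (by omega) (by omega), bs_top (p := i + 2) (j := j) (by omega) (by omega),
      bs_top (p := i + 2) (j := 0) (by omega) (by omega), by omega, by omega, by omega, by omega⟩

end Pool.Agent.Helper318.MB
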