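import Mathlib
import Pool.Agent.Helper318.MB.Basic

set_option autoImplicit false

namespace Pool.Agent.Helper318.MB


/-- the planted pair -/
lemma pair {i k τ : ℕ} (hk1 : 1 ≤ k) (hk : k < N i) (hτ : τ < N i)
    (hs : τ = cr i (A i) ∨ τ ∉ A i) :
    ∃ b c : ℕ, b ∈ AA ∧ c ∈ AA ∧ b + c + τ = N (i + 1) ∧ N i < b ∧ N i < c ∧
      b + 4 * N i * (N i * k + τ) = 200 * N i ^ 4 := by
  obtain ⟨f1, f2, f3, f4⟩ := fracs i
  obtain ⟨g2, g3, g4⟩ := pow_bd (N_ge i)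
  have hM := N_ge i
  have hn := N_succ i
  have h1 := Me_bd hk hτ
  have hb : 200 * N i ^ 4 - 4 * N i * (N i * k + τ) ∈ P (N i) (N (i + 1))
      (fun τ => τ = cr i (A i) ∨ τ ∉ A i) :=
    ⟨k, τ, hk1, hk, hτ, hs, Or.inl (by omega)⟩
  have hc : 200 * N i ^ 4 + 4 * N i * (N i * k + τ) - τ ∈ P (N i) (N (i + 1))
      (fun τ => τ = cr i (A i) ∨ τ ∉ A i) :=
    ⟨k, τ, hk1, hk, hτ, hs, Or.inr (by omega)⟩
  have hb2 := P_gt hb
  have hc2 := P_gt hc
  refine ⟨_, _, A_sub_AA (mem_succ.2 (Or.inr (Or.inr (Or.inr hb)))),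
    A_sub_AA (mem_succ.2 (Or.inr (Or.inr (Or.inr hc)))), ?_, hb2, hc2, ?_⟩
  · omega
  · omega

/-- coverage near the critical numbers -/
theorem cover_near (i m : ℕ) (F : Set ℕ) (hF : ∀ x ∈ F, x ≤ i)
    (h1 : N (i + 3) ≤ m + N (i + 2) / 100) (h2 : m ≤ N (i + 3) + N (i + 2) / 100) :
    N i ≤ (R3 (AA \ F) m).ncard := by
  have l0 := lt_N i
  have l1 := N_lt i
  have l2 : 1000 * N (i + 1) < N (i + 2) := N_lt (i + 1)
  have hM := N_ge (i + 2)
  -- the third summand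
  obtain ⟨x, τ, hx, hxi, hτ, hs, hm⟩ : ∃ x τ : ℕ, x ∈ AA ∧ i < x ∧ τ < N (i + 2) ∧
      (τ = cr (i + 2) (A (i + 2)) ∨ τ ∉ A (i + 2)) ∧ m + τ = N (i + 3) + x := by
    rcases lt_trichotomy m (N (i + 3)) with h | h | h
    · refine ⟨3 * N (i + 2) / 5 + 1, 3 * N (i + 2) / 5 + 1 + (N (i + 3) - m),
        A_sub_AA (W_mem (i + 2)), by omega, by omega, Or.inr ?_, by omega⟩
      intro hh
      have := (A_bd _ _ hh).1
      omega
    · refine ⟨cr (i + 2) (A (i + 2)), cr (i + 2) (A (i + 2)), A_sub_AA (cr_mem _), ?_,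
        A_lt (cr_mem _), Or.inl rfl, by omega⟩
      unfold cr
      split_ifs <;> omega
    · refine ⟨11 * N (i + 2) / 20, 11 * N (i + 2) / 20 - (m - N (i + 3)),
        A_sub_AA (V_mem (i + 2)), by omega, by omega, Or.inr ?_, by omega⟩
      intro hh
      have := (A_bd _ _ hh).2
      omega
  have hex : ∀ j : ℕ, ∃ p : ℕ × ℕ × ℕ, j < N i → p ∈ R3 (AA \ F) m ∧
      p.2.1 + 4 * N (i + 2) * (N (i + 2) * (j + 1) + τ) = 200 * N (i + 2) ^ 4 := by
    intro j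
    by_cases hj : j < N i
    · obtain ⟨b, c, hb, hc, hbc, hb2, hc2, he⟩ := pair (i := i + 2) (k := j + 1) (τ := τ)
        (by omega) (by omega) hτ hs
      refine ⟨(x, b, c), fun _ => ⟨⟨⟨hx, ?_⟩, ⟨hb, ?_⟩, ⟨hc, ?_⟩, ?_⟩, he⟩⟩
      · intro h; have h' : x ≤ i := hF _ h; omega
      · intro h; have h' : b ≤ i := hF _ h; omega
      · intro h; have h' : c ≤ i := hF _ h; omega
      · show x + b + c = m
        have e7 : N (i + 2 + 1) = N (i + 3) := rfl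
        rw [e7] at hbc
        omega
    · exact ⟨(0, 0, 0), fun h => absurd h hj⟩
  choose f hf using hex
  apply ncard_ge f
  · intro j hj
    exact (hf j hj).1
  · intro j hj l hl hjl
    have e1 := (hf j hj).2
    have e2 := (hf l hl).2
    rw [hjl] at e1
    have e3 : 4 * N (i + 2) * (N (i + 2) * (j + 1) + τ) =
        4 * N (i + 2) * (N (i + 2) * (l + 1) + τ) := by omega
    have e4 := Nat.eq_of_mul_eq_mul_left (by omega) e3
    have e5 : N (i + 2) * (j + 1) = N (i + 2) * (l + 1) := by omega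
    have e6 := Nat.eq_of_mul_eq_mul_left (by omega) e5
    omega

end Pool.Agent.Helper318.MB
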